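import Pool.Agent.Helper75.PX.Stmts3

/-! # Row CL2 of the project PX -/

set_option autoImplicit false

universe u

open Module TensorProduct

namespace Pool.Agent.Helper75.PX

theorem st_CL2 : ST_CL2.{u} := by
  intro F K A _ _ _ _ _ L i j a b hD ha hb
  have h1 : i * i = a • (1 : A) := by rw [hD.hi, Algebra.algebraMap_eq_smul_one]
  have h2 : j * j = b • (1 : A) := by rw [hD.hj, Algebra.algebraMap_eq_smul_one]
  have h3 : j * i = -(i * j) := by rw [hD.hij, neg_neg]
  have h4 : i * (i * j) = a • j := by rw [← mul_assoc, h1, smul_mul_assoc, one_mul]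
  have h5 : j * (i * j) = (-b) • i := by
    rw [← mul_assoc, h3, neg_mul, mul_assoc, h2, mul_smul_comm, mul_one, neg_smul]
  have h6 : i * j * j = b • i := by rw [mul_assoc, h2, mul_smul_comm, mul_one]
  have h7 : i * j * i = (-a) • j := by rw [mul_assoc, h3, mul_neg, h4, neg_smul]
  have h8 : i * j * (i * j) = (-(a * b)) • (1 : A) := by
    rw [mul_assoc, h5, mul_smul_comm, h1, smul_smul]
    congr 1
    ring
  have e00 : e2q i j (0, 0) = 1 := by simp [e2q]
  have e01 : e2q i j (0, 1) = j := by simp [e2q]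
  have e10 : e2q i j (1, 0) = i := by simp [e2q]
  have e11 : e2q i j (1, 1) = i * j := by simp [e2q]
  have hm : ∀ (k : K) (_ : k ∈ L) (s : Fin 2 × Fin 2),
      k • e2q i j s ∈ Submodule.span L (Set.range (e2q i j)) := by
    intro k hk s
    have h := Submodule.smul_mem (Submodule.span L (Set.range (e2q i j))) (⟨k, hk⟩ : L)
      (Submodule.subset_span ⟨s, rfl⟩)
    exact h
  have m0000 : e2q i j (0, 0) * e2q i j (0, 0) ∈ Submodule.span L (Set.range (e2q i j)) := by
    have h := hm 1 (L.one_mem) (0, 0)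
    rw [e00] at h
    rw [e00]
    rw [one_mul]
    rw [one_smul] at h
    exact h
  have m0001 : e2q i j (0, 0) * e2q i j (0, 1) ∈ Submodule.span L (Set.range (e2q i j)) := by
    have h := hm 1 (L.one_mem) (0, 1)
    rw [e01] at h
    rw [e00, e01]
    rw [one_mul]
    rw [one_smul] at h
    exact h
  have m0010 : e2q i j (0, 0) * e2q i j (1, 0) ∈ Submodule.span L (Set.range (e2q i j)) := by
    have h := hm 1 (L.one_mem) (1, 0)
    rw [e10] at h
    rw [e00, e10]
    rw [one_mul]
    rw [one_smul] at h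
    exact h
  have m0011 : e2q i j (0, 0) * e2q i j (1, 1) ∈ Submodule.span L (Set.range (e2q i j)) := by
    have h := hm 1 (L.one_mem) (1, 1)
    rw [e11] at h
    rw [e00, e11]
    rw [one_mul]
    rw [one_smul] at h
    exact h
  have m0100 : e2q i j (0, 1) * e2q i j (0, 0) ∈ Submodule.span L (Set.range (e2q i j)) := by
    have h := hm 1 (L.one_mem) (0, 1)
    rw [e01] at h
    rw [e01, e00]
    rw [mul_one]
    rw [one_smul] at h
    exact h
  have m0101 : e2q i j (0, 1) * e2q i j (0, 1) ∈ Submodule.span L (Set.range (e2q i j)) := by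
    have h := hm b (hb) (0, 0)
    rw [e00] at h
    rw [e01]
    rw [h2]
    exact h
  have m0110 : e2q i j (0, 1) * e2q i j (1, 0) ∈ Submodule.span L (Set.range (e2q i j)) := by
    have h := hm (-1) (L.neg_mem L.one_mem) (1, 1)
    rw [e11] at h
    rw [e01, e10]
    rw [h3]
    rw [neg_smul, one_smul] at h
    exact h
  have m0111 : e2q i j (0, 1) * e2q i j (1, 1) ∈ Submodule.span L (Set.range (e2q i j)) := by
    have h := hm (-b) (L.neg_mem hb) (1, 0)
    rw [e10] at h
    rw [e01, e11]
    rw [h5]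
    exact h
  have m1000 : e2q i j (1, 0) * e2q i j (0, 0) ∈ Submodule.span L (Set.range (e2q i j)) := by
    have h := hm 1 (L.one_mem) (1, 0)
    rw [e10] at h
    rw [e10, e00]
    rw [mul_one]
    rw [one_smul] at h
    exact h
  have m1001 : e2q i j (1, 0) * e2q i j (0, 1) ∈ Submodule.span L (Set.range (e2q i j)) := by
    have h := hm 1 (L.one_mem) (1, 1)
    rw [e11] at h
    rw [e10, e01]
    rw [one_smul] at h
    exact h
  have m1010 : e2q i j (1, 0) * e2q i j (1, 0) ∈ Submodule.span L (Set.range (e2q i j)) := by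
    have h := hm a (ha) (0, 0)
    rw [e00] at h
    rw [e10]
    rw [h1]
    exact h
  have m1011 : e2q i j (1, 0) * e2q i j (1, 1) ∈ Submodule.span L (Set.range (e2q i j)) := by
    have h := hm a (ha) (0, 1)
    rw [e01] at h
    rw [e10, e11]
    rw [h4]
    exact h
  have m1100 : e2q i j (1, 1) * e2q i j (0, 0) ∈ Submodule.span L (Set.range (e2q i j)) := by
    have h := hm 1 (L.one_mem) (1, 1)
    rw [e11] at h
    rw [e11, e00]
    rw [mul_one]
    rw [one_smul] at h
    exact h
  have m1101 : e2q i j (1, 1) * e2q i j (0, 1) ∈ Submodule.span L (Set.range (e2q i j)) := by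
    have h := hm b (hb) (1, 0)
    rw [e10] at h
    rw [e11, e01]
    rw [h6]
    exact h
  have m1110 : e2q i j (1, 1) * e2q i j (1, 0) ∈ Submodule.span L (Set.range (e2q i j)) := by
    have h := hm (-a) (L.neg_mem ha) (0, 1)
    rw [e01] at h
    rw [e11, e10]
    rw [h7]
    exact h
  have m1111 : e2q i j (1, 1) * e2q i j (1, 1) ∈ Submodule.span L (Set.range (e2q i j)) := by
    have h := hm (-(a * b)) (L.neg_mem (L.mul_mem ha hb)) (0, 0)
    rw [e00] at h
    rw [e11]
    rw [h8]
    exact h
  rintro ⟨s1, s2⟩ ⟨s3, s4⟩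
  fin_cases s1 <;> fin_cases s2 <;> fin_cases s3 <;> fin_cases s4
  · exact m0000
  · exact m0001
  · exact m0010
  · exact m0011
  · exact m0100
  · exact m0101
  · exact m0110
  · exact m0111
  · exact m1000
  · exact m1001
  · exact m1010
  · exact m1011
  · exact m1100
  · exact m1101
  · exact m1110
  · exact m1111

end Pool.Agent.Helper75.PX
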