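import Pool.Agent.Helper75.PX.Stmts4

/-! # Row FIN2 of the project PX: the field with two elements -/

set_option autoImplicit false

universe u

open Module TensorProduct

namespace Pool.Agent.Helper75.PX

theorem st_FIN2 : ST_FIN2.{u} := by
  intro F K A _ _ _ _ _ _ _ hK
  have hsurj : ∀ s : K, ∃ t : F, algebraMap F K t = s := by
    intro s
    rcases hK s with h | h
    · exact ⟨0, by rw [map_zero, h]⟩
    · exact ⟨-1, by rw [map_neg, map_one]; exact (eq_neg_of_add_eq_zero_left h).symm⟩
  refine ⟨⊤, A, inferInstance, inferInstance, ?_, ?_, inferInstance, ?_, ?_⟩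
  · have halg : Algebra.IsAlgebraic F (⊤ : IntermediateField F K) := by
      constructor
      intro x
      obtain ⟨t, ht⟩ := hsurj (x : K)
      have : x = algebraMap F (⊤ : IntermediateField F K) t := by
        apply Subtype.ext
        rw [← ht]
        rfl
      rw [this]
      exact isAlgebraic_algebraMap t
    have h0 : Algebra.trdeg F (⊤ : IntermediateField F K) = 0 := trdeg_eq_zero
    rw [h0]
    exact zero_le
  · constructor
    intro x hx
    have h1 : x ∈ Subalgebra.center K A := by
      rw [Subalgebra.mem_center_iff] at hx ⊢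
      exact hx
    have h2 := Algebra.IsCentral.out h1
    rw [Algebra.mem_bot] at h2 ⊢
    obtain ⟨k, hk⟩ := h2
    exact ⟨⟨k, IntermediateField.mem_top⟩, hk⟩
  · have h1 : finrank (⊤ : IntermediateField F K) K * finrank K A =
        finrank (⊤ : IntermediateField F K) A := finrank_mul_finrank _ _ _
    rw [← h1, IntermediateField.finrank_top, one_mul]
  · let φ : (K ⊗[(⊤ : IntermediateField F K)] A) →ₐ[K] A :=
      Algebra.TensorProduct.lift (Algebra.ofId K A) (AlgHom.id _ A) (fun k a => by
        exact Algebra.commutes k a)
    have hφ : ∀ (k : K) (a : A), φ (k ⊗ₜ a) = k • a := by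
      intro k a
      change algebraMap K A k * a = k • a
      rw [Algebra.smul_def]
    have hz : ∀ z : K ⊗[(⊤ : IntermediateField F K)] A, z = 1 ⊗ₜ (φ z) := by
      intro z
      induction z using TensorProduct.induction_on with
      | zero => rw [map_zero, TensorProduct.tmul_zero]
      | tmul k a =>
        rw [hφ]
        have e1 : k = (⟨k, IntermediateField.mem_top⟩ : (⊤ : IntermediateField F K)) • (1 : K) := by
          change k = k * 1
          rw [mul_one]
        have e2 : k • a = (⟨k, IntermediateField.mem_top⟩ : (⊤ : IntermediateField F K)) • a := rfl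
        rw [e2, ← TensorProduct.smul_tmul, ← e1]
      | add x y hx hy =>
        rw [map_add, TensorProduct.tmul_add, ← hx, ← hy]
    refine ⟨AlgEquiv.ofBijective φ ⟨?_, ?_⟩⟩
    · intro x y hxy
      rw [hz x, hz y, hxy]
    · intro a
      exact ⟨1 ⊗ₜ a, by rw [hφ, one_smul]⟩

end Pool.Agent.Helper75.PX
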