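import Pool.Agent.Helper75.PX.Stmts6

/-!
# PX, row W4b: the fourth generator, characteristic two
-/

set_option autoImplicit false

universe u

open Module TensorProduct

namespace Pool.Agent.Helper75.PX

section
variable {D : Type u} [Ring D]

theorem w4b_c (h2D : ∀ x : D, x + x = 0) {x α A : D} (hA : x * A = A * x)
    (haa : α * α = α + A) : (x * α + α * x) * α = (α + 1) * (x * α + α * x) := by
  have e1 : x * α * α = x * α + A * x := by rw [mul_assoc, haa, mul_add, hA]
  have e2 : α * (α * x) = α * x + A * x := by rw [← mul_assoc, haa, add_mul]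
  have e3 : (α + 1) * (x * α + α * x) = (x * α + α * x) * α + (α * x + α * x) := by
    have e4 : (x * α + α * x) * α = x * α * α + α * (x * α) := by rw [add_mul, mul_assoc α x α]
    have e5 : (α + 1) * (x * α + α * x) = α * (x * α) + α * (α * x) + (x * α + α * x) := by
      rw [add_mul, mul_add, one_mul]
    rw [e4, e5, e1, e2]
    abel
  rw [e3, h2D (α * x), add_zero]

theorem w4b_s (h2D : ∀ x : D, x + x = 0) {z α : D} (hza : z * α = (α + 1) * z) :
    z * (α + 1) = α * z := by
  have e : z * (α + 1) = α * z + (z + z) := by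
    rw [mul_add, hza, add_mul, mul_one, one_mul]
    abel
  rw [e, h2D, add_zero]

theorem w4b_p (h2D : ∀ x : D, x + x = 0) {x α A : D} (hA : x * A = A * x)
    (haa : α * α = α + A) :
    (x + (x * α + α * x)) * α = α * (x + (x * α + α * x)) := by
  have e1 := w4b_c h2D hA haa
  have e2 : (x + (x * α + α * x)) * α = α * (x + (x * α + α * x)) + (x * α + x * α) := by
    rw [add_mul, e1, add_mul α 1, one_mul, mul_add α x]
    abel
  rw [e2, h2D, add_zero]

end

theorem st_W4b (hCE : ST_CEb.{u}) : ST_W4b.{u} := by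
  intro K D _ _ _ _ hD h2 α β z a b haa hbb hα hβ hab hz hza hzb
  have h2D : ∀ x : D, x + x = 0 := by
    intro x
    have h : (2 : D) = 0 := by
      rw [← map_ofNat (algebraMap K D) 2]
      exact (map_eq_zero _).2 h2
    rw [← two_mul, h, zero_mul]
  have hcomm : ∀ (k : K) (x : D), x * algebraMap K D k = algebraMap K D k * x := fun k x =>
    (Algebra.commutes k x).symm
  -- an element commuting with `α` and not with `β`
  obtain ⟨y, hy, hyb⟩ : ∃ y : D, y * α = α * y ∧ y * β ≠ β * y := by
    by_contra hex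
    push Not at hex
    have hc : β ∈ Subalgebra.center K D := by
      rw [Subalgebra.mem_center_iff]
      intro x
      obtain ⟨d, hd⟩ : ∃ d : D, d = x * α + α * x := ⟨_, rfl⟩
      have c0 : d * α = (α + 1) * d := by
        rw [hd]
        exact w4b_c h2D (hcomm a x) haa
      have c1 : (x + d) * α = α * (x + d) := by
        rw [hd]
        exact w4b_p h2D (hcomm a x) haa
      have c3 : (z * d) * α = α * (z * d) := by
        rw [mul_assoc, c0, ← mul_assoc, w4b_s h2D hza, mul_assoc]
      have d1 := hex _ c1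
      have d3 := hex _ c3
      have d2 : d * β = β * d := by
        apply mul_left_cancel₀ hz
        rw [← mul_assoc, d3, ← mul_assoc, ← hzb, mul_assoc]
      rw [add_mul, mul_add, d2] at d1
      exact add_right_cancel d1
    have hb := Algebra.IsCentral.out hc
    obtain ⟨k, hk⟩ := Algebra.mem_bot.1 hb
    exact hβ k hk.symm
  -- the element `w`
  obtain ⟨w, hw⟩ : ∃ w : D, w = y * β + β * y := ⟨_, rfl⟩
  have hw0 : w ≠ 0 := by
    intro h
    apply hyb
    have h1 : y * β + β * y = β * y + β * y := by
      rw [h2D, ← hw, h]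
    exact add_right_cancel h1
  have hwa : w * α = α * w := by
    have e1 : y * β * α = α * (y * β) := by
      rw [mul_assoc, ← hab, ← mul_assoc, hy, mul_assoc]
    have e2 : β * y * α = α * (β * y) := by
      rw [mul_assoc, hy, ← mul_assoc, ← hab, mul_assoc]
    rw [hw, add_mul, mul_add, e1, e2]
  have hwb : w * β = (β + 1) * w := by
    rw [hw]
    exact w4b_c h2D (hcomm b y) hbb
  have hwb' : w * (β + 1) = β * w := w4b_s h2D hwb
  have hα0 : α ≠ 0 := fun h => hα 0 (by rw [h, map_zero])
  have k1 : (w * w) * α = α * (w * w) := by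
    rw [mul_assoc, hwa, ← mul_assoc, hwa, mul_assoc]
  have k2 : (w * w) * β = β * (w * w) := by
    rw [mul_assoc, hwb, ← mul_assoc, hwb', mul_assoc]
  obtain ⟨v, hv⟩ := hCE K D hD h2 α β z w a b haa hbb hab hz hw0 hza hzb hwa hwb (w * w) k1 k2
  -- the part of `β` vanishes
  have hbw : β * w = w * β + w := by
    have e : w * β + w = β * w + (w + w) := by
      rw [hwb, add_mul, one_mul]
      abel
    rw [e, h2D, add_zero]
  have hz1 : (v 2 • (1 : D) + v 3 • α) * w = 0 := by
    have e1 : w * uE α β v = uE α β v * w := by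
      rw [← hv, mul_assoc]
    have e2 : uE α β v * w = w * uE α β v + (v 2 • (1 : D) + v 3 • α) * w := by
      unfold uE
      have e3 : α * β * w = w * (α * β) + α * w := by
        rw [mul_assoc, hbw, mul_add, ← mul_assoc, ← hwa, mul_assoc]
      simp only [add_mul, mul_add, smul_mul_assoc, mul_smul_comm, one_mul, mul_one, e3, hbw,
        smul_add, ← hwa]
      abel
    rw [e1] at e2
    exact (add_eq_left.1 e2.symm)
  have hz2 : v 2 • (1 : D) + v 3 • α = 0 := (mul_eq_zero.1 hz1).resolve_right hw0
  have hv3 : v 3 = 0 := by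
    by_contra h
    apply hα (-(v 2) / v 3)
    have e1 : v 3 • α = -(v 2 • (1 : D)) := eq_neg_of_add_eq_zero_right hz2
    have e2 : α = (v 3)⁻¹ • (v 3 • α) := by
      rw [smul_smul, inv_mul_cancel₀ h, one_smul]
    rw [e2, e1, ← neg_smul, smul_smul, Algebra.algebraMap_eq_smul_one]
    congr 1
    field_simp
  have hv2 : v 2 = 0 := by
    rw [hv3, zero_smul, add_zero] at hz2
    exact (smul_eq_zero.1 hz2).resolve_right one_ne_zero
  have hww : w * w = v 0 • (1 : D) + v 1 • α := by
    rw [hv]
    unfold uE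
    rw [hv2, hv3, zero_smul, zero_smul, add_zero, add_zero]
  by_cases h1 : v 1 = 0
  · rw [h1, zero_smul, add_zero] at hww
    have h0 : v 0 ≠ 0 := by
      intro h
      rw [h, zero_smul] at hww
      exact hw0 (mul_self_eq_zero.1 hww)
    refine ⟨w * α, a, v 0, mul_ne_zero hw0 hα0, ?_, ?_, h0, ?_⟩
    · rw [hwa, mul_assoc, hwa]
    · rw [mul_assoc, hab, ← mul_assoc, hwb, mul_assoc]
    · rw [mul_assoc, ← mul_assoc α w α, ← hwa, mul_assoc w α α, ← mul_assoc, hww, haa,
        smul_mul_assoc, one_mul]
  · refine ⟨w, v 0 / v 1, v 1, hw0, hwa, hwb, h1, ?_⟩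
    rw [hww, smul_add, Algebra.algebraMap_eq_smul_one, smul_smul, mul_div_cancel₀ _ h1, add_comm]

end Pool.Agent.Helper75.PX
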